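import Mathlib

namespace Pool.Agent.MP_88c4e5_co.H68

/-- Lattice terms in the language with join and meet, over the variables `0, 1, 2, ...`. -/
inductive Term : Type
  | var : ℕ → Term
  | sup : Term → Term → Term
  | inf : Term → Term → Term

/-- Value of a term in a lattice under an assignment of the variables. -/
def Term.eval {L : Type*} [Lattice L] (v : ℕ → L) : Term → L
  | .var n => v n
  | .sup a b => a.eval v ⊔ b.eval v
  | .inf a b => a.eval v ⊓ b.eval v

/-- The identity `p = q` holds in the lattice `L`. -/
def Holds (L : Type*) [Lattice L] (p q : Term) : Prop :=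
  ∀ v : ℕ → L, p.eval v = q.eval v

/-- The quasi-identity with premises `hyps` and conclusion `p = q` holds in the lattice `L`. -/
def QHolds (L : Type*) [Lattice L] (hyps : List (Term × Term)) (p q : Term) : Prop :=
  ∀ v : ℕ → L, (∀ h ∈ hyps, h.1.eval v = h.2.eval v) → p.eval v = q.eval v

/-- A central arrangement: a finite set of linear hyperplanes of real `d`-space. -/
structure Arrangement (d : ℕ) where
  hyps : Finset (Submodule ℝ (EuclideanSpace ℝ (Fin d)))
  codim_one : ∀ H ∈ hyps, Module.finrank ℝ H + 1 = d

/-- The complement of the union of the hyperplanes. -/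
def Arrangement.compl {d : ℕ} (A : Arrangement d) : Set (EuclideanSpace ℝ (Fin d)) :=
  {x | ∀ H ∈ A.hyps, x ∉ H}

/-- The regions: connected components of the complement. -/
def Arrangement.Region {d : ℕ} (A : Arrangement d) : Type :=
  {R : Set (EuclideanSpace ℝ (Fin d)) // ∃ x ∈ A.compl, R = connectedComponentIn A.compl x}

/-- The hyperplane `H` separates `R` from `B`: they lie in opposite open half-spaces of `H`. -/
def Separates {d : ℕ} (H : Submodule ℝ (EuclideanSpace ℝ (Fin d)))
    (R B : Set (EuclideanSpace ℝ (Fin d))) : Prop :=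
  ∃ f : EuclideanSpace ℝ (Fin d) →ₗ[ℝ] ℝ,
    LinearMap.ker f = H ∧ (∀ x ∈ R, 0 < f x) ∧ ∀ x ∈ B, f x < 0

/-- The set of hyperplanes of the arrangement separating `R` from the base region `B`. -/
def Arrangement.sepSet {d : ℕ} (A : Arrangement d) (B R : A.Region) :
    Set (Submodule ℝ (EuclideanSpace ℝ (Fin d))) :=
  {H | H ∈ A.hyps ∧ Separates H R.1 B.1}

end Pool.Agent.MP_88c4e5_co.H68
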