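import Pool.Agent.MP_88c4e5_co.H68.Radon

namespace Pool.Agent.MP_88c4e5_co.H68

open Set

/-- meet of a base term and a list of terms -/
def meetList (base : Term) (l : List Term) : Term := l.foldr Term.inf base

theorem le_meetList {L : Type*} [Lattice L] (v : ℕ → L) (base : Term) (l : List Term) (u : L) :
    u ≤ (meetList base l).eval v ↔ u ≤ base.eval v ∧ ∀ t ∈ l, u ≤ t.eval v := by
  induction l with
  | nil => simp [meetList]
  | cons a l ih =>
    have : meetList base (a :: l) = .inf a (meetList base l) := rfl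
    rw [this, Term.eval, le_inf_iff, ih]
    simp only [List.mem_cons, forall_eq_or_imp]
    tauto

/-- `y ⊓ z_0 ⊓ ... ⊓ z_d` -/
def allMeet (d : ℕ) : Term :=
  meetList (.var 1) ((List.finRange (d + 1)).map fun i : Fin (d + 1) => .var (i.1 + 2))

/-- the same meet with `z_k` left out -/
def butMeet (d : ℕ) (k : Fin (d + 1)) : Term :=
  meetList (.var 1) (((List.finRange (d + 1)).filter fun i => i ≠ k).map fun i : Fin (d + 1) => .var (i.1 + 2))

theorem le_allMeet {L : Type*} [Lattice L] (v : ℕ → L) (d : ℕ) (u : L) :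
    u ≤ (allMeet d).eval v ↔ u ≤ v 1 ∧ ∀ i : Fin (d + 1), u ≤ v (i + 2) := by
  simp [allMeet, le_meetList, Term.eval]

theorem le_butMeet {L : Type*} [Lattice L] (v : ℕ → L) (d : ℕ) (k : Fin (d + 1)) (u : L) :
    u ≤ (butMeet d k).eval v ↔ u ≤ v 1 ∧ ∀ i : Fin (d + 1), i ≠ k → u ≤ v (i + 2) := by
  simp only [butMeet, le_meetList, Term.eval, List.mem_map, List.mem_filter, List.mem_finRange,
    true_and, decide_eq_true_eq]
  refine and_congr_right fun _ => ⟨fun h i hi => h _ ⟨i, hi, rfl⟩, ?_⟩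
  rintro h _ ⟨i, hi, rfl⟩
  exact h i hi

/-- premises of the quasi-identity for dimension `d` -/
def prem (d : ℕ) : List (Term × Term) :=
  (.sup (allMeet d) (.var 0), .var 0) ::
    (List.finRange (d + 1)).map fun k => (.inf (.var 1) (.sup (.var 0) (butMeet d k)), .var 1)

theorem prem_iff {L : Type*} [Lattice L] (v : ℕ → L) (d : ℕ) :
    (∀ h ∈ prem d, h.1.eval v = h.2.eval v) ↔
      (allMeet d).eval v ≤ v 0 ∧ ∀ k, v 1 ≤ v 0 ⊔ (butMeet d k).eval v := by
  simp [prem, Term.eval]

theorem quasi_holds {d : ℕ} (A : Arrangement d) (B : A.Region) :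
    QHolds (DM A B) (prem d) (.sup (.var 1) (.var 0)) (.var 0) := by
  intro v hv
  obtain ⟨h1, h2⟩ := (prem_iff v d).1 hv
  obtain ⟨f, b, ρ, hb, hρ⟩ := model_of_arrangement A B
  simp only [Term.eval, sup_eq_right]
  refine quasi_core finrank_euclideanSpace_fin hb hρ (v 0) (v 1) (fun i => v 1 ⊓ v (i + 2))
    (fun k => (butMeet d k).eval v) (fun k => ((le_butMeet v d k _).1 le_rfl).1)
    (fun k i hi => le_inf ((le_butMeet v d k _).1 le_rfl).1 (((le_butMeet v d k _).1 le_rfl).2 i hi))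
    (fun u hu => le_trans ((le_allMeet v d u).2
      ⟨(hu 0).trans inf_le_left, fun i => (hu i).trans inf_le_right⟩) h1) h2

theorem quasi_fails (d : ℕ) :
    ¬ QHolds (Submodule ℚ (Fin (d + 1) → ℚ)) (prem d) (.sup (.var 1) (.var 0)) (.var 0) := by
  classical
  intro H
  let s : (Fin (d + 1) → ℚ) →ₗ[ℚ] ℚ := ∑ i, LinearMap.proj i
  have hs : ∀ x, s x = ∑ i, x i := fun x => by simp [s]
  let v : ℕ → Submodule ℚ (Fin (d + 1) → ℚ) := fun n =>
    match n with
    | 0 => LinearMap.ker s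
    | 1 => ⊤
    | n + 2 => if h : n < d + 1 then LinearMap.ker (LinearMap.proj (⟨n, h⟩ : Fin (d + 1))) else ⊤
  have hv : ∀ (i : Fin (d + 1)) x, x ∈ v (i + 2) ↔ x i = 0 := fun i x => by
    simp [v, Nat.lt_succ_iff.1 i.2]
  have h := H v ((prem_iff v d).2 ⟨?_, fun k => ?_⟩)
  · simp only [Term.eval, sup_eq_right] at h
    have h1 : (Pi.single 0 1 : Fin (d + 1) → ℚ) ∈ LinearMap.ker s := h trivial
    rw [LinearMap.mem_ker, hs] at h1
    simp at h1
  · intro x hx
    have h1 := ((le_allMeet v d _).1 le_rfl).2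
    change s x = 0
    rw [hs]
    exact Finset.sum_eq_zero fun i _ => (hv i x).1 (h1 i hx)
  · intro x _
    have h1 : Submodule.span ℚ {(Pi.single k 1 : Fin (d + 1) → ℚ)} ≤ (butMeet d k).eval v := by
      refine (le_butMeet v d k _).2 ⟨le_top, fun i hi => ?_⟩
      rw [Submodule.span_le, singleton_subset_iff]
      exact (hv i _).2 (by simp [hi])
    have h2 : x = (x - s x • Pi.single k 1) + s x • Pi.single k 1 := by abel
    rw [h2]
    refine Submodule.add_mem_sup ?_ (h1 (Submodule.smul_mem _ _ (Submodule.subset_span rfl)))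
    change s _ = 0
    rw [map_sub, map_smul, hs (Pi.single k 1)]
    simp

end Pool.Agent.MP_88c4e5_co.H68
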