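import Pool.Agent.MP_88c4e5_co.H68.Poset

namespace Pool.Agent.MP_88c4e5_co.H68

open Set

/-- `D` is join- and meet-generated by the family `ρ`, ordered like the sets `S`. -/
def IsModel {D W E : Type} [LE D] (ρ : W → D) (S : W → Set E) : Prop :=
  ∀ X Y : D, X ≤ Y ↔ ∀ v w, ρ v ≤ X → Y ≤ ρ w → S v ⊆ S w

theorem exists_eps {E : Type} [Finite E] (a c : E → ℝ) :
    ∃ ε : ℝ, 0 < ε ∧ ∀ e, 0 < a e → 0 < a e + ε * c e := by
  have h1 : ∀ e, ∀ᶠ ε in nhdsWithin (0 : ℝ) (Ioi 0), 0 < a e → 0 < a e + ε * c e := by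
    intro e
    by_cases h : 0 < a e
    · have hc : Continuous fun ε : ℝ => a e + ε * c e := by fun_prop
      have : ∀ᶠ ε in nhds (0 : ℝ), 0 < a e + ε * c e :=
        hc.continuousAt.eventually (lt_mem_nhds (by simpa using h))
      exact (this.filter_mono nhdsWithin_le_nhds).mono fun ε hε _ => hε
    · exact Filter.Eventually.of_forall fun ε h' => absurd h' h
  obtain ⟨ε, hε, hpos⟩ := ((Filter.eventually_all.2 h1).and self_mem_nhdsWithin).exists
  exact ⟨ε, hpos, hε⟩

theorem bridge {d : ℕ} (A : Arrangement d) (B : A.Region) {E : Type} [Finite E]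
    (f : E → EuclideanSpace ℝ (Fin d) →ₗ[ℝ] ℝ) {b} (hbB : b ∈ B.1) (hb : ∀ e, f e b < 0)
    (hA : ∀ H, H ∈ A.hyps ↔ ∃ e, LinearMap.ker (f e) = H) :
    ∃ ρ : EuclideanSpace ℝ (Fin d) → DM A B, IsModel ρ fun x => {e | 0 < f e x} := by
  have hk : ∀ e, LinearMap.ker (f e) ∈ A.hyps := fun e => (hA _).2 ⟨e, rfl⟩
  have hle : ∀ (R R' : A.Region) x y, x ∈ R.1 → y ∈ R'.1 →
      ((@LE.le (Pos A B) _ R R') ↔ ∀ e, 0 < f e x → 0 < f e y) := by
    intro R R' x y hx hy
    change A.sepSet B R ⊆ A.sepSet B R' ↔ _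
    constructor
    · intro h e he
      exact (mem_sepSet_iff B R' (hk e) hbB (hb e) hy).1
        (h ((mem_sepSet_iff B R (hk e) hbB (hb e) hx).2 he))
    · intro h H hH
      obtain ⟨e, rfl⟩ := (hA H).1 hH.1
      exact (mem_sepSet_iff B R' (hk e) hbB (hb e) hy).2
        (h e ((mem_sepSet_iff B R (hk e) hbB (hb e) hx).1 hH))
  have hgen : ∀ x, ∃ R : A.Region, ∃ y ∈ R.1, ∀ e, 0 < f e y ↔ 0 < f e x := by
    intro x
    obtain ⟨ε, hε, h⟩ := exists_eps (fun e => f e x) (fun e => f e b)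
    have hval : ∀ e, f e (x + ε • b) = f e x + ε * f e b := fun e => by
      rw [map_add, map_smul, smul_eq_mul]
    have hneg : ∀ e, ¬ 0 < f e x → f e (x + ε • b) < 0 := fun e he => by
      rw [hval]
      have := mul_neg_of_pos_of_neg hε (hb e)
      linarith [not_lt.1 he]
    have hmem : x + ε • b ∈ A.compl := by
      intro H hH hx
      obtain ⟨e, rfl⟩ := (hA H).1 hH
      rw [LinearMap.mem_ker] at hx
      by_cases he : 0 < f e x
      · have := h e he
        rw [← hval, hx] at this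
        exact lt_irrefl _ this
      · exact (hneg e he).ne hx
    refine ⟨⟨_, _, hmem, rfl⟩, x + ε • b, mem_connectedComponentIn hmem, fun e => ⟨fun he => ?_,
      fun he => by rw [hval]; exact h e he⟩⟩
    by_contra hcon
    exact lt_asymm he (hneg e hcon)
  choose r y hy hry using hgen
  have hr : ∀ v w, (@LE.le (Pos A B) _ (r v) (r w)) ↔ ∀ e, 0 < f e v → 0 < f e w := by
    intro v w
    rw [hle _ _ _ _ (hy v) (hy w)]
    simp only [hry]
  have hsurj : ∀ R : Pos A B, ∃ v, r v = R := by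
    intro R
    obtain ⟨x, hx⟩ := region_nonempty R
    refine ⟨x, @le_antisymm (Pos A B) _ _ _ ?_ ?_⟩
    · exact (hle _ _ _ _ (hy x) hx).2 fun e => (hry x e).1
    · exact (hle _ _ _ _ hx (hy x)).2 fun e => (hry x e).2
  refine ⟨fun v => DedekindCut.principal (α := Pos A B) (r v), fun X Y => ⟨?_, ?_⟩⟩
  · intro h v w hv hw
    have := (hv.trans h).trans hw
    rw [DedekindCut.principal_le_principal] at this
    exact (hr v w).1 this
  · intro h
    rw [← Concept.extent_subset_extent_iff]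
    intro R hR
    rw [← Y.lowerPolar_intent]
    intro R' hR'
    obtain ⟨v, rfl⟩ := hsurj R
    obtain ⟨w, rfl⟩ := hsurj R'
    exact (hr v w).2 (h v w (DedekindCut.principal_le_iff.2 hR) (DedekindCut.le_principal_iff.2 hR'))

theorem model_of_arrangement {d : ℕ} (A : Arrangement d) (B : A.Region) :
    ∃ (f : A.hyps → EuclideanSpace ℝ (Fin d) →ₗ[ℝ] ℝ) (b : EuclideanSpace ℝ (Fin d))
      (ρ : EuclideanSpace ℝ (Fin d) → DM A B),
      (∀ e, f e b < 0) ∧ IsModel ρ fun x => {e | 0 < f e x} := by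
  obtain ⟨b, hb⟩ := region_nonempty B
  have : ∀ e : A.hyps, ∃ f : EuclideanSpace ℝ (Fin d) →ₗ[ℝ] ℝ,
      LinearMap.ker f = e.1 ∧ f b < 0 :=
    fun e => exists_functional e.2 (region_subset B hb _ e.2)
  choose f hf hfb using this
  obtain ⟨ρ, hρ⟩ := bridge A B f hb hfb fun H =>
    ⟨fun h => ⟨⟨H, h⟩, hf _⟩, fun ⟨e, he⟩ => by rw [← he, hf]; exact e.2⟩
  exact ⟨f, b, ρ, hfb, hρ⟩

theorem exists_model (d : ℕ) {W : Type} [AddCommGroup W] [Module ℝ W] [FiniteDimensional ℝ W]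
    (hW : Module.finrank ℝ W ≤ d) {E : Type} [Finite E] (f : E → W →ₗ[ℝ] ℝ) (b : W)
    (hb : ∀ e, f e b < 0) :
    ∃ (A : Arrangement d) (B : A.Region) (ρ : W → DM A B),
      IsModel ρ fun w => {e | 0 < f e w} := by
  classical
  haveI := Fintype.ofFinite E
  obtain ⟨ι, hι⟩ : ∃ ι : W →ₗ[ℝ] EuclideanSpace ℝ (Fin d), Function.Injective ι := by
    rw [← finrank_le_iff_exists_linearMap, finrank_euclideanSpace_fin]
    exact hW
  obtain ⟨π, hπ⟩ := ι.exists_leftInverse_of_injective (LinearMap.ker_eq_bot.2 hι)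
  have hπι : ∀ w, π (ι w) = w := fun w => LinearMap.congr_fun hπ w
  let g : E → EuclideanSpace ℝ (Fin d) →ₗ[ℝ] ℝ := fun e => (f e).comp π
  have hg : ∀ e, g e (ι b) < 0 := fun e => by simpa [g, hπι] using hb e
  let A : Arrangement d :=
    { hyps := Finset.univ.image fun e => LinearMap.ker (g e)
      codim_one := by
        intro H hH
        obtain ⟨e, -, rfl⟩ := Finset.mem_image.1 hH
        have hne : g e ≠ 0 := fun h => by simpa [h] using hg e
        have := Module.Dual.finrank_ker_add_one_of_ne_zero (f := g e) hne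
        rwa [finrank_euclideanSpace_fin] at this }
  have hA : ∀ H, H ∈ A.hyps ↔ ∃ e, LinearMap.ker (g e) = H := fun H => by simp [A]
  have hmem : ι b ∈ A.compl := by
    intro H hH hx
    obtain ⟨e, rfl⟩ := (hA H).1 hH
    exact (hg e).ne (LinearMap.mem_ker.1 hx)
  let B : A.Region := ⟨_, _, hmem, rfl⟩
  obtain ⟨ρ, hρ⟩ := bridge A B g (mem_connectedComponentIn hmem) hg hA
  refine ⟨A, B, fun w => ρ (ι w), fun X Y => ?_⟩
  have hS : ∀ w, {e | 0 < g e (ι w)} = {e | 0 < f e w} := fun w => by simp [g, hπι]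
  have hS' : ∀ x, {e | 0 < g e x} = {e | 0 < g e (ι (π x))} := fun x => by simp [g, hπι]
  have hmono : ∀ x y, {e | 0 < g e x} ⊆ {e | 0 < g e y} → ρ x ≤ ρ y := by
    intro x y h
    refine (hρ _ _).2 fun v w hv hw => ?_
    exact (((hρ _ _).1 hv v x le_rfl le_rfl).trans h).trans ((hρ _ _).1 hw y w le_rfl le_rfl)
  constructor
  · intro h v w hv hw
    have := (hρ X Y).1 h _ _ hv hw
    simpa only [hS] using this
  · intro h
    refine (hρ X Y).2 fun v w hv hw => ?_
    have := h (π v) (π w) ((hmono _ _ (hS' v).ge).trans hv) (hw.trans (hmono _ _ (hS' w).le))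
    change {e | 0 < g e v} ⊆ {e | 0 < g e w}
    rw [hS' v, hS' w, hS, hS]
    exact this

end Pool.Agent.MP_88c4e5_co.H68
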