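import Pool.Agent.MP_88c4e5_co.H68.TwoProj

namespace Pool.Agent.MP_88c4e5_co.H68

open Set

/-- An injective numbering of terms that increases with the subterm order. -/
def code : Term → ℕ
  | .var n => 3 * n + 1
  | .sup a b => 3 * Nat.pair (code a) (code b) + 2
  | .inf a b => 3 * Nat.pair (code a) (code b) + 3

theorem code_pos (a : Term) : 1 ≤ code a := by cases a <;> simp [code]

theorem code_injective : Function.Injective code := by
  intro a
  induction a with
  | var n => intro b h; cases b <;> simp only [code] at h <;> first | omega | (congr 1; omega)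
  | sup a₁ a₂ ih₁ ih₂ =>
    intro b h
    cases b <;> simp only [code] at h
    · omega
    · rename_i b₁ b₂
      have := Nat.pair_eq_pair.1
        (by omega : Nat.pair (code a₁) (code a₂) = Nat.pair (code b₁) (code b₂))
      rw [ih₁ this.1, ih₂ this.2]
    · omega
  | inf a₁ a₂ ih₁ ih₂ =>
    intro b h
    cases b <;> simp only [code] at h
    · omega
    · omega
    · rename_i b₁ b₂
      have := Nat.pair_eq_pair.1
        (by omega : Nat.pair (code a₁) (code a₂) = Nat.pair (code b₁) (code b₂))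
      rw [ih₁ this.1, ih₂ this.2]

theorem code_sup_left (a b : Term) : code a < code (.sup a b) := by
  have := Nat.left_le_pair (code a) (code b); simp only [code]; omega
theorem code_sup_right (a b : Term) : code b < code (.sup a b) := by
  have := Nat.right_le_pair (code a) (code b); simp only [code]; omega
theorem code_inf_left (a b : Term) : code a < code (.inf a b) := by
  have := Nat.left_le_pair (code a) (code b); simp only [code]; omega
theorem code_inf_right (a b : Term) : code b < code (.inf a b) := by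
  have := Nat.right_le_pair (code a) (code b); simp only [code]; omega

theorem finite_code_le (T : ℕ) : Finite {a : Term // code a ≤ T} :=
  Finite.of_injective (fun a => (⟨code a.1, Nat.lt_succ_of_le a.2⟩ : Fin (T + 1)))
    fun _ _ h => Subtype.ext (code_injective (congrArg Fin.val h))

/-- point on a parabola -/
def par (t : ℕ) : Fin 2 → ℝ := ![t, (t : ℝ) ^ 2 - 1]

/-- functional cutting off the point `par t` -/
noncomputable def cut (t : ℕ) : Fin 2 → ℝ := ![2 / t, -1 / (t : ℝ) ^ 2]

theorem cut_par {t : ℕ} (ht : 1 ≤ t) (s : ℕ) :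
    cut t ⬝ᵥ par s = 1 + (1 - ((s : ℝ) - t) ^ 2) / (t : ℝ) ^ 2 := by
  have : (t : ℝ) ≠ 0 := by positivity
  simp only [cut, par, Matrix.dotProduct_cons, Matrix.head_cons, Matrix.tail_cons,
    Matrix.dotProduct_of_isEmpty]
  field_simp
  ring

theorem cut_par_ne {t s : ℕ} (ht : 1 ≤ t) (hs : s ≠ t) : cut t ⬝ᵥ par s ≤ 1 := by
  rw [cut_par ht]
  have h1 : (1 : ℝ) ≤ ((s : ℝ) - t) ^ 2 := by
    have h2 : ((s : ℤ) - t) ≠ 0 := by omega
    have h3 : (1 : ℤ) ≤ ((s : ℤ) - t) ^ 2 := by
      have := sq_pos_of_ne_zero h2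
      omega
    exact_mod_cast h3
  have : (1 - ((s : ℝ) - t) ^ 2) / (t : ℝ) ^ 2 ≤ 0 :=
    div_nonpos_of_nonpos_of_nonneg (by linarith) (by positivity)
  linarith

theorem cut_par_self {t T : ℕ} (ht : 1 ≤ t) (hT : t ≤ T) :
    1 + 1 / (T : ℝ) ^ 2 ≤ cut t ⬝ᵥ par t := by
  rw [cut_par ht]
  have h0 : (0 : ℝ) < t := by positivity
  have h1 : (t : ℝ) ≤ T := by exact_mod_cast hT
  simp only [sub_self, ne_eq, OfNat.ofNat_ne_zero, not_false_eq_true, zero_pow, sub_zero]
  gcongr

theorem exists_counter (d : ℕ) (hd : 5 ≤ d) {L : Type*} [Lattice L] (v : ℕ → L) (p q : Term)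
    (hpq : ¬ p.eval v ≤ q.eval v) :
    ∃ (A : Arrangement d) (B : A.Region) (v' : ℕ → DM A B), ¬ p.eval v' ≤ q.eval v' := by
  classical
  set T := max (code p) (code q) with hT
  have hT1 : 1 ≤ T := (code_pos p).trans (le_max_left _ _)
  let P : Type := {ab : Term × Term // code ab.1 ≤ T ∧ code ab.2 ≤ T ∧ ¬ ab.1.eval v ≤ ab.2.eval v}
  haveI := finite_code_le T
  haveI : Finite P := Finite.of_injective
    (fun ab : P => ((⟨ab.1.1, ab.2.1⟩, ⟨ab.1.2, ab.2.2.1⟩) :
      {a : Term // code a ≤ T} × {a : Term // code a ≤ T})) fun a b h => by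
      simp only [Prod.mk.injEq, Subtype.mk.injEq] at h
      exact Subtype.ext (Prod.ext h.1 h.2)
  have hTpos : (0 : ℝ) < T := by positivity
  let η : ℝ := 1 / ((2 * T + 1) * (T : ℝ) ^ 2)
  have hη : 0 < η := by positivity
  let h : P → ℝ := fun ab => 1 + η * (code ab.1.1 + code ab.1.2)
  have hh1 : ∀ ab, 1 < h ab := fun ab => by
    have : (0 : ℝ) < code ab.1.1 := by exact_mod_cast code_pos _
    have : 0 < η * (code ab.1.1 + code ab.1.2) := by positivity
    simp only [h]; linarith
  have hh2 : ∀ ab, h ab < 1 + 1 / (T : ℝ) ^ 2 := fun ab => by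
    have h1 : (code ab.1.1 : ℝ) ≤ T := by exact_mod_cast ab.2.1
    have h2 : (code ab.1.2 : ℝ) ≤ T := by exact_mod_cast ab.2.2.1
    have h3 : η * (code ab.1.1 + code ab.1.2) < η * (2 * T + 1) :=
      mul_lt_mul_of_pos_left (by linarith) hη
    have h4 : η * (2 * T + 1) = 1 / (T : ℝ) ^ 2 := by simp only [η]; field_simp
    simp only [h]; linarith
  let K₁ : Type := {pr : P × P // pr.1.1.2 = pr.2.1.2 ∧ code pr.2.1.1 < code pr.1.1.1}
  let K₂ : Type := {pr : P × P // pr.1.1.1 = pr.2.1.1 ∧ code pr.2.1.2 < code pr.1.1.2}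
  obtain ⟨A, B, ⟨F⟩⟩ := exists_frame d (I := Fin 2) (J := Fin 2) (K₁ := K₁) (K₂ := K₂)
    (by simpa using hd) (fun ab : P => par (code ab.1.1)) (fun ab : P => par (code ab.1.2)) h
    (fun ab => zero_lt_one.trans (hh1 ab))
    (fun k => k.1.1) (fun k => {k.1.2}) 1 zero_le_one
    (fun k => by simp [k.2.1])
    (fun k => by
      have h1 : (code k.1.2.1.1 : ℝ) < code k.1.1.1.1 := by exact_mod_cast k.2.2
      simp only [Finset.sum_singleton, one_mul, h, k.2.1]
      gcongr)
    (fun k => k.1.1) (fun k => {k.1.2}) 1 zero_le_one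
    (fun k => by simp [k.2.1])
    (fun k => by
      have h1 : (code k.1.2.1.2 : ℝ) < code k.1.1.1.2 := by exact_mod_cast k.2.2
      simp only [Finset.sum_singleton, one_mul, h, k.2.1]
      gcongr)
  have hlo : ∀ a, code a ≤ T → ∀ ab : P,
      h ab < cut (code a) ⬝ᵥ par (code ab.1.1) ↔ ab.1.1 = a := by
    intro a ha ab
    constructor
    · intro h1
      by_contra h2
      have := cut_par_ne (code_pos a) (fun h3 => h2 (code_injective h3))
      linarith [hh1 ab]
    · rintro rfl
      exact (hh2 ab).trans_le (cut_par_self (code_pos _) ha)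
  have hup : ∀ b, code b ≤ T → ∀ ab : P,
      cut (code b) ⬝ᵥ par (code ab.1.2) < h ab ↔ ab.1.2 ≠ b := by
    intro b hb ab
    constructor
    · rintro h1 rfl
      linarith [(hh2 ab).trans_le (cut_par_self (code_pos _) hb)]
    · intro h2
      exact (cut_par_ne (code_pos b) (fun h3 => h2 (code_injective h3))).trans_lt (hh1 ab)
  let v' : ℕ → DM A B := fun n => F.X0 ⊔ F.lo (cut (code (.var n)))
  have hbd : ∀ a : Term, F.X0 ≤ a.eval v' ∧ a.eval v' ≤ F.X1 := by
    intro a
    induction a with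
    | var n => exact ⟨le_sup_left, sup_le F.x0_le_x1 (F.lo_le_x1 _)⟩
    | sup a b iha ihb => exact ⟨iha.1.trans le_sup_left, sup_le iha.2 ihb.2⟩
    | inf a b iha ihb => exact ⟨le_inf iha.1 ihb.1, inf_le_left.trans iha.2⟩
  have stepA : ∀ a, code a ≤ T → ∀ Y, F.X0 ≤ Y →
      (∀ b : Term, ¬ a.eval v ≤ b.eval v →
        ∃ a', code a' < code a ∧ ¬ a'.eval v ≤ b.eval v ∧ F.lo (cut (code a')) ≤ Y) →
      F.lo (cut (code a)) ≤ Y := by
    intro a ha Y hY H
    refine F.lo_le _ _ hY fun ab hab => ?_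
    have h1 := (hlo a ha ab).1 hab
    obtain ⟨a', h2, h3, h4⟩ := H ab.1.2 (h1 ▸ ab.2.2.2)
    let r : P := ⟨(a', ab.1.2), by simp only; omega, ab.2.2.1, h3⟩
    refine F.ruleJ ⟨(ab, r), rfl, by simp only [r, h1]; exact h2⟩ Y hY fun r' hr' => ?_
    rw [Finset.mem_singleton] at hr'
    subst hr'
    exact F.sub_cl _ _ h4 ((hlo a' (by omega) r).2 rfl)
  have stepB : ∀ b, code b ≤ T → ∀ X, X ≤ F.X1 →
      (∀ a : Term, ¬ a.eval v ≤ b.eval v →
        ∃ b', code b' < code b ∧ ¬ a.eval v ≤ b'.eval v ∧ X ≤ F.up (cut (code b'))) →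
      X ≤ F.up (cut (code b)) := by
    intro b hb X hX H
    refine F.le_up _ _ hX fun ab hab => (hup b hb ab).2 fun h1 => ?_
    obtain ⟨b', h2, h3, h4⟩ := H ab.1.1 (h1 ▸ ab.2.2.2)
    let r : P := ⟨(ab.1.1, b'), ab.2.1, by simp only; omega, h3⟩
    obtain ⟨r', hr', h5⟩ := F.ruleM ⟨(ab, r), rfl, by simp only [r, h1]; exact h2⟩ X hX hab
    rw [Finset.mem_singleton] at hr'
    subst hr'
    exact (hup b' (by omega) r).1 (F.int_sub _ _ h4 h5) rfl
  have claimA : ∀ a, code a ≤ T → F.lo (cut (code a)) ≤ a.eval v' := by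
    intro a
    induction a with
    | var n => exact fun _ => le_sup_right
    | sup a b iha ihb =>
      intro hab
      have h1 := code_sup_left a b
      have h2 := code_sup_right a b
      refine stepA _ hab _ (hbd _).1 fun c hc => ?_
      by_cases h3 : a.eval v ≤ c.eval v
      · exact ⟨b, h2, fun h4 => hc (sup_le h3 h4), (ihb (by omega)).trans le_sup_right⟩
      · exact ⟨a, h1, h3, (iha (by omega)).trans le_sup_left⟩
    | inf a b iha ihb =>
      intro hab
      have h1 := code_inf_left a b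
      have h2 := code_inf_right a b
      exact le_inf
        (stepA _ hab _ (hbd _).1 fun c hc =>
          ⟨a, h1, fun h4 => hc (inf_le_left.trans h4), iha (by omega)⟩)
        (stepA _ hab _ (hbd _).1 fun c hc =>
          ⟨b, h2, fun h4 => hc (inf_le_right.trans h4), ihb (by omega)⟩)
  have claimB : ∀ b, code b ≤ T → b.eval v' ≤ F.up (cut (code b)) := by
    intro b
    induction b with
    | var n =>
      intro hb
      refine sup_le (F.x0_le_up _) ((F.lo_le_up _ _).2 fun ab hab => (hup _ hb ab).2 fun h1 => ?_)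
      have h2 := (hlo _ hb ab).1 hab
      exact ab.2.2.2 (by rw [h1, h2])
    | sup a b iha ihb =>
      intro hab
      have h1 := code_sup_left a b
      have h2 := code_sup_right a b
      exact sup_le
        (stepB _ hab _ (hbd _).2 fun c hc =>
          ⟨a, h1, fun h4 => hc (h4.trans le_sup_left), iha (by omega)⟩)
        (stepB _ hab _ (hbd _).2 fun c hc =>
          ⟨b, h2, fun h4 => hc (h4.trans le_sup_right), ihb (by omega)⟩)
    | inf a b iha ihb =>
      intro hab
      have h1 := code_inf_left a b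
      have h2 := code_inf_right a b
      refine stepB _ hab _ (hbd _).2 fun c hc => ?_
      by_cases h3 : c.eval v ≤ a.eval v
      · exact ⟨b, h2, fun h4 => hc (le_inf h3 h4), inf_le_right.trans (ihb (by omega))⟩
      · exact ⟨a, h1, h3, inf_le_left.trans (iha (by omega))⟩
  refine ⟨A, B, v', fun hle => ?_⟩
  have hp : code p ≤ T := le_max_left _ _
  have hq : code q ≤ T := le_max_right _ _
  have h1 := (F.lo_le_up _ _).1 (((claimA p hp).trans hle).trans (claimB q hq))
  let r : P := ⟨(p, q), hp, hq, hpq⟩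
  exact (hup q hq r).1 (h1 ((hlo p hp r).2 rfl)) rfl

theorem holds_of_holds_DM (d : ℕ) (hd : 5 ≤ d) (p q : Term)
    (H : ∀ (A : Arrangement d) (B : A.Region), Holds (DM A B) p q)
    (L : Type*) [Lattice L] : Holds L p q := by
  intro v
  by_contra hne
  rcases not_and_or.1 (fun h : _ ∧ _ => hne (le_antisymm h.1 h.2)) with h | h
  · obtain ⟨A, B, v', h'⟩ := exists_counter d hd v p q h
    exact h' (H A B v').le
  · obtain ⟨A, B, v', h'⟩ := exists_counter d hd v q p h
    exact h' (H A B v').ge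

end Pool.Agent.MP_88c4e5_co.H68
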