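import Pool.Agent.MP_88c4e5_co.H68.NoIdentity

namespace Pool.Agent.MP_88c4e5_co.H68

open Set

/-- Every finite family in a lattice is represented in some completion, with the order and all
existing joins and meets. -/
theorem exists_rep {L : Type*} [Lattice L] {I : Type} [Finite I] [Nonempty I] (u : I → L) :
    ∃ (d : ℕ) (_ : 1 ≤ d) (A : Arrangement d) (B : A.Region) (G : I → DM A B),
      (∀ i j, G i ≤ G j → u i ≤ u j) ∧ (∀ i j k, u k ≤ u i ⊔ u j → G k ≤ G i ⊔ G j) ∧
      (∀ i j k, u i ⊓ u j ≤ u k → G i ⊓ G j ≤ G k) := by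
  classical
  haveI := Fintype.ofFinite I
  let n : ℝ := Fintype.card I
  have hn : 0 ≤ n := by positivity
  let c : ℝ := 1 / (n + 1)
  have hc : 0 < c := by positivity
  let s₁ : I → Finset (I ⊕ I) :=
    fun j => (Finset.univ.filter fun m => ¬ u j ≤ u m).map Function.Embedding.inr
  let s₂ : I → Finset (I ⊕ I) :=
    fun m => (Finset.univ.filter fun j => ¬ u j ≤ u m).map Function.Embedding.inl
  let x : I ⊕ I → I → ℝ :=
    Sum.elim (fun j => Pi.single j 1) (fun m j => if u j ≤ u m then 0 else c)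
  let y : I ⊕ I → I → ℝ :=
    Sum.elim (fun j m => if u j ≤ u m then 0 else c) (fun m => Pi.single m 1)
  have hcard : ∀ s : Finset I, c * (s.card : ℝ) < 1 := fun s => by
    have h1 : (s.card : ℝ) ≤ n := by simp only [n]; exact_mod_cast s.card_le_univ
    simp only [c]
    rw [div_mul_eq_mul_div, div_lt_one (by positivity)]
    linarith
  obtain ⟨A, B, ⟨F⟩⟩ := exists_frame (Fintype.card I + Fintype.card I + 1) (K₁ := I) (K₂ := I)
    le_rfl x y (fun _ => 1) (fun _ => one_pos)
    Sum.inl s₁ c hc.le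
    (fun j => by
      funext m
      simp only [y, s₁, Sum.elim_inl, Finset.sum_map, Function.Embedding.inr_apply, Sum.elim_inr,
        Pi.smul_apply, Finset.sum_apply, Pi.single_apply, smul_eq_mul]
      by_cases h : u j ≤ u m <;> simp [h])
    (fun j => by simpa [s₁] using hcard _)
    Sum.inr s₂ c hc.le
    (fun m => by
      funext j
      simp only [x, s₂, Sum.elim_inr, Finset.sum_map, Function.Embedding.inl_apply, Sum.elim_inl,
        Pi.smul_apply, Finset.sum_apply, Pi.single_apply, smul_eq_mul]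
      by_cases h : u j ≤ u m <;> simp [h])
    (fun m => by simpa [s₂] using hcard _)
  let κ : I → I → ℝ := fun j => Pi.single j (n + 2)
  have hκc : 1 < (n + 2) * c := by
    simp only [c]
    rw [mul_one_div, one_lt_div (by positivity)]
    linarith
  have hx1 : ∀ j j', 1 < κ j ⬝ᵥ x (.inl j') ↔ j' = j := fun j j' => by
    simp only [κ, x, single_dotProduct, Sum.elim_inl, Pi.single_apply]
    by_cases h : j = j'
    · simp [h]; linarith
    · simp [h, Ne.symm h]
  have hx2 : ∀ j m, 1 < κ j ⬝ᵥ x (.inr m) ↔ ¬ u j ≤ u m := fun j m => by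
    simp only [κ, x, single_dotProduct, Sum.elim_inr]
    by_cases h : u j ≤ u m <;> simp [h, hκc]
  have hy1 : ∀ m j, κ m ⬝ᵥ y (.inl j) < 1 ↔ u j ≤ u m := fun m j => by
    simp only [κ, y, single_dotProduct, Sum.elim_inl]
    by_cases h : u j ≤ u m <;> simp [h, hκc.le]
  have hy2 : ∀ m m', κ m ⬝ᵥ y (.inr m') < 1 ↔ m' ≠ m := fun m m' => by
    simp only [κ, y, single_dotProduct, Sum.elim_inr, Pi.single_apply]
    by_cases h : m = m'
    · simp [h]; linarith
    · simp [h, Ne.symm h]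
  have hLU : ∀ j m, F.lo (κ j) ≤ F.up (κ m) ↔ u j ≤ u m := by
    intro j m
    rw [F.lo_le_up]
    constructor
    · intro h
      exact (hy1 m j).1 (h (a := .inl j) ((hx1 j j).2 rfl))
    · rintro h (j' | m') hp
      · rw [(hx1 j j').1 hp]; exact (hy1 m j).2 h
      · exact (hy2 m m').2 fun h1 => (hx2 j m').1 hp (h1 ▸ h)
  have hJ : ∀ k Y, F.X0 ≤ Y → (∀ m, ¬ u k ≤ u m → .inr m ∈ F.Cl Y) → .inl k ∈ F.Cl Y := by
    intro k Y hY H
    refine F.ruleJ k Y hY fun r hr => ?_
    simp only [s₁, Finset.mem_map, Finset.mem_filter, Finset.mem_univ, true_and,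
      Function.Embedding.inr_apply] at hr
    obtain ⟨m, hm, rfl⟩ := hr
    exact H m hm
  have hM : ∀ k X, X ≤ F.X1 → .inr k ∈ F.Int X → ∃ j, ¬ u j ≤ u k ∧ .inl j ∈ F.Int X := by
    intro k X hX H
    obtain ⟨r, hr, h1⟩ := F.ruleM k X hX H
    simp only [s₂, Finset.mem_map, Finset.mem_filter, Finset.mem_univ, true_and,
      Function.Embedding.inl_apply] at hr
    obtain ⟨j, hj, rfl⟩ := hr
    exact ⟨j, hj, h1⟩
  have hlow : ∀ k Y, F.X0 ≤ Y → (∀ m, ¬ u k ≤ u m → ∃ i, ¬ u i ≤ u m ∧ F.lo (κ i) ≤ Y) →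
      F.lo (κ k) ≤ Y := by
    intro k Y hY H
    have H' : ∀ m, ¬ u k ≤ u m → .inr m ∈ F.Cl Y := fun m hm => by
      obtain ⟨i, hi, h1⟩ := H m hm
      exact F.sub_cl _ _ h1 ((hx2 i m).2 hi)
    refine F.lo_le _ _ hY ?_
    rintro (j | m) hp
    · rw [(hx1 k j).1 hp]; exact hJ k Y hY H'
    · exact H' m ((hx2 k m).1 hp)
  have hupp : ∀ k X, X ≤ F.X1 → (∀ j, ¬ u j ≤ u k → ∃ i, ¬ u j ≤ u i ∧ X ≤ F.up (κ i)) →
      X ≤ F.up (κ k) := by
    intro k X hX H
    have H' : ∀ j, .inl j ∈ F.Int X → u j ≤ u k := fun j hj => by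
      by_contra h1
      obtain ⟨i, hi, h2⟩ := H j h1
      exact hi ((hy1 i j).1 (F.int_sub _ _ h2 hj))
    refine F.le_up _ _ hX ?_
    rintro (j | m) hp
    · exact (hy1 k j).2 (H' j hp)
    · refine (hy2 k m).2 fun h1 => ?_
      subst h1
      obtain ⟨j, hj, h2⟩ := hM m X hX hp
      exact hj (H' j h2)
  have hGH : ∀ i, F.X0 ⊔ F.lo (κ i) = F.X1 ⊓ F.up (κ i) := by
    intro i
    refine le_antisymm (sup_le (le_inf F.x0_le_x1 (F.x0_le_up _))
      (le_inf (F.lo_le_x1 _) ((hLU i i).2 le_rfl))) ?_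
    refine F.le_iff _ _ inf_le_left le_sup_left ?_
    rintro (j | m) hp
    · have h1 : u j ≤ u i := (hy1 i j).1 (F.int_sub _ _ inf_le_right hp)
      refine F.sub_cl (κ j) _ (hlow j _ le_sup_left fun m hm => ?_) ((hx1 j j).2 rfl)
      exact ⟨i, fun h2 => hm (h1.trans h2), le_sup_right⟩
    · refine F.sub_cl (κ i) _ le_sup_right ((hx2 i m).2 fun h1 => ?_)
      have h2 : F.X1 ⊓ F.up (κ i) ≤ F.up (κ m) :=
        hupp m _ inf_le_left fun j hj => ⟨i, fun h3 => hj (h3.trans h1), inf_le_right⟩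
      exact (hy2 m m).1 (F.int_sub _ _ h2 hp) rfl
  refine ⟨_, by omega, A, B, fun i => F.X0 ⊔ F.lo (κ i), fun i j h => ?_, fun i j k h => ?_,
    fun i j k h => ?_⟩
  · replace h : F.X0 ⊔ F.lo (κ i) ≤ F.X0 ⊔ F.lo (κ j) := h
    rw [hGH j] at h
    exact (hLU i j).1 ((le_sup_right.trans h).trans inf_le_right)
  · refine sup_le (le_sup_left.trans le_sup_left)
      (hlow k _ (le_sup_left.trans le_sup_left) fun m hm => ?_)
    by_cases h1 : u i ≤ u m
    · exact ⟨j, fun h2 => hm (h.trans (sup_le h1 h2)), le_sup_right.trans le_sup_right⟩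
    · exact ⟨i, h1, le_sup_right.trans le_sup_left⟩
  · simp only [hGH]
    refine le_inf (inf_le_left.trans inf_le_left)
      (hupp k _ (inf_le_left.trans inf_le_left) fun m hm => ?_)
    by_cases h1 : u m ≤ u i
    · exact ⟨j, fun h2 => hm ((le_inf h1 h2).trans h), inf_le_right.trans inf_le_right⟩
    · exact ⟨i, h1, inf_le_left.trans inf_le_right⟩

theorem qholds_of_qholds_DM (hyps : List (Term × Term)) (p q : Term)
    (H : ∀ d, 1 ≤ d → ∀ (A : Arrangement d) (B : A.Region), QHolds (DM A B) hyps p q)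
    (L : Type*) [Lattice L] : QHolds L hyps p q := by
  classical
  intro v hv
  obtain ⟨T, hp, hq, hT⟩ : ∃ T, code p ≤ T ∧ code q ≤ T ∧
      ∀ h ∈ hyps, code h.1 ≤ T ∧ code h.2 ≤ T := by
    refine ⟨code p + code q + (hyps.map fun h => code h.1 + code h.2).sum, by omega, by omega,
      fun h hh => ?_⟩
    have := List.single_le_sum (l := hyps.map fun h => code h.1 + code h.2)
      (fun _ _ => Nat.zero_le _) _ (List.mem_map_of_mem hh)
    omega
  haveI := finite_code_le T
  haveI : Nonempty {a : Term // code a ≤ T} := ⟨⟨p, hp⟩⟩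
  obtain ⟨d, hd, A, B, G, h1, h2, h3⟩ :=
    exists_rep (fun a : {a : Term // code a ≤ T} => a.1.eval v)
  have hmono : ∀ i j, i.1.eval v ≤ j.1.eval v → G i ≤ G j := fun i j h => by
    simpa using h2 j j i (by simpa using h)
  let v' : ℕ → DM A B := fun n => if h : code (.var n) ≤ T then G ⟨_, h⟩ else ⊥
  have hev : ∀ (a : Term) (h : code a ≤ T), a.eval v' = G ⟨a, h⟩ := by
    intro a
    induction a with
    | var n => intro h; simp only [Term.eval, v', dif_pos h]
    | sup a b iha ihb =>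
      intro h
      have ha := (code_sup_left a b).le.trans h
      have hb := (code_sup_right a b).le.trans h
      rw [Term.eval, iha ha, ihb hb]
      exact le_antisymm (sup_le (hmono _ _ le_sup_left) (hmono _ _ le_sup_right))
        (h2 _ _ _ le_rfl)
    | inf a b iha ihb =>
      intro h
      have ha := (code_inf_left a b).le.trans h
      have hb := (code_inf_right a b).le.trans h
      rw [Term.eval, iha ha, ihb hb]
      exact le_antisymm (h3 _ _ _ le_rfl)
        (le_inf (hmono _ _ inf_le_left) (hmono _ _ inf_le_right))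
  have := H d hd A B v' fun h hh => by
    rw [hev _ (hT h hh).1, hev _ (hT h hh).2]
    exact le_antisymm (hmono _ _ (hv h hh).le) (hmono _ _ (hv h hh).ge)
  rw [hev p hp, hev q hq] at this
  exact le_antisymm (h1 _ _ this.le) (h1 _ _ this.ge)

end Pool.Agent.MP_88c4e5_co.H68
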