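import Pool.Agent.MP_88c4e5_co.H68.Signs

namespace Pool.Agent.MP_88c4e5_co.H68

/-- The poset of regions with base region `B` (carrier: the regions). -/
def Pos {d : ℕ} (A : Arrangement d) (_B : A.Region) : Type := A.Region

/-- `R ≤ R'` iff the separating set of `R` is contained in that of `R'`. -/
instance Pos.partialOrder {d : ℕ} (A : Arrangement d) (B : A.Region) : PartialOrder (Pos A B) :=
  PartialOrder.lift (A.sepSet B) (sepSet_injective A B)

/-- The Dedekind-MacNeille completion of the poset of regions. -/
abbrev DM {d : ℕ} (A : Arrangement d) (B : A.Region) : Type := DedekindCut (Pos A B)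

end Pool.Agent.MP_88c4e5_co.H68
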