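import Pool.Agent.MP_88c4e5_co.H68.Model

namespace Pool.Agent.MP_88c4e5_co.H68

open Set

section general
variable {D W E : Type} [Lattice D] {ρ : W → D} {S : W → Set E}

theorem IsModel.sub (h : IsModel ρ S) {v w : W} (hvw : ρ v ≤ ρ w) : S v ⊆ S w :=
  (h _ _).1 hvw v w le_rfl le_rfl

/-- `ρ v ≤ X` iff `S v` lies in all `S w` above `X`. -/
theorem IsModel.rho_le (h : IsModel ρ S) {v : W} {X : D} :
    ρ v ≤ X ↔ ∀ w, X ≤ ρ w → S v ⊆ S w :=
  ⟨fun hv _ hw => h.sub (hv.trans hw),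
    fun H => (h _ _).2 fun _ w hv' hw => (h.sub hv').trans (H w hw)⟩

theorem IsModel.le_rho (h : IsModel ρ S) {w : W} {X : D} :
    X ≤ ρ w ↔ ∀ v, ρ v ≤ X → S v ⊆ S w :=
  ⟨fun hw _ hv => h.sub (hv.trans hw),
    fun H => (h _ _).2 fun v _ hv hw' => (H v hv).trans (h.sub hw')⟩

theorem IsModel.rho_le_rho (h : IsModel ρ S) {v w : W} : ρ v ≤ ρ w ↔ S v ⊆ S w :=
  ⟨h.sub, fun H => h.rho_le.2 fun _ hw => H.trans (h.sub hw)⟩

end general

section linear
variable {D W E : Type} [Lattice D] [AddCommGroup W] [Module ℝ W] [Finite E]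
  {f : E → W →ₗ[ℝ] ℝ} {b : W} {ρ : W → D}

/-- Anti-exchange in functional form. -/
theorem exists_critical (hb : ∀ e, f e b < 0) (X Y : Set E)
    (h0 : ∃ v, X ⊆ {e | 0 < f e v} ∧ ¬ Y ⊆ {e | 0 < f e v}) :
    ∃ v p, X ⊆ {e | 0 < f e v} ∧ p ∈ Y ∧ ¬ 0 < f p v ∧
      ∀ u, ∀ p' ∈ Y, ¬ 0 < f p' v → 0 < f p' u → 0 < f p u := by
  classical
  obtain ⟨v, ⟨hX, hY⟩, hmax⟩ := Set.Finite.exists_maximalFor'
    (fun v : W => ({e | 0 < f e v} ∩ Y).ncard)
    {v | X ⊆ {e | 0 < f e v} ∧ ¬ Y ⊆ {e | 0 < f e v}}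
    ((Set.finite_Iic (Nat.card E)).subset (by
      rintro _ ⟨v, -, rfl⟩
      exact Set.ncard_le_card _)) h0
  have hmax' : ∀ v', X ⊆ {e | 0 < f e v'} → ¬ Y ⊆ {e | 0 < f e v'} →
      {e | 0 < f e v} ∩ Y ⊆ {e | 0 < f e v'} ∩ Y → {e | 0 < f e v'} ∩ Y ⊆ {e | 0 < f e v} := by
    intro v' h1 h2 h3
    have h4 := Set.ncard_le_ncard h3 (Set.toFinite _)
    have h5 := hmax (j := v') ⟨h1, h2⟩ h4
    rw [← Set.eq_of_subset_of_ncard_le h3 h5 (Set.toFinite _)]
    exact inter_subset_left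
  obtain ⟨p, ⟨hpY, hpv⟩, hp⟩ := Set.exists_max_image {e | e ∈ Y ∧ ¬ 0 < f e v}
    (fun e => f e v / f e b) (Set.toFinite _) (by
      obtain ⟨e, he1, he2⟩ := Set.not_subset.1 hY
      exact ⟨e, he1, he2⟩)
  set t := f p v / f p b with ht
  have ht0 : 0 ≤ t := div_nonneg_of_nonpos (not_lt.1 hpv) (hb p).le
  have hval : ∀ e, f e (v - t • b) = f e v - t * f e b := fun e => by
    rw [map_sub, map_smul, smul_eq_mul]
  have hinc : ∀ e, 0 < f e v → 0 < f e (v - t • b) := fun e he => by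
    rw [hval]
    have := mul_nonpos_of_nonneg_of_nonpos ht0 (hb e).le
    linarith
  have hp0 : f p (v - t • b) = 0 := by
    rw [hval, ht, div_mul_cancel₀ _ (hb p).ne, sub_self]
  have hge : ∀ e ∈ Y, ¬ 0 < f e v → 0 ≤ f e (v - t • b) := fun e he hev => by
    rw [hval]
    have := hp e ⟨he, hev⟩
    rw [div_le_iff_of_neg (hb e)] at this
    linarith
  refine ⟨v, p, hX, hpY, hpv, fun u p' hp'Y hp'v hp'u => ?_⟩
  by_contra hpu
  obtain ⟨ε, hε, hε'⟩ := exists_eps (fun e => f e (v - t • b)) (fun e => f e u)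
  have hval2 : ∀ e, f e (v - t • b + ε • u) = f e (v - t • b) + ε * f e u := fun e => by
    rw [map_add, map_smul, smul_eq_mul]
  have hinc2 : ∀ e, 0 < f e v → 0 < f e (v - t • b + ε • u) := fun e he => by
    rw [hval2]; exact hε' e (hinc e he)
  have key := hmax' (v - t • b + ε • u) (fun e he => hinc2 e (hX he)) (fun h => by
      have := h hpY
      rw [mem_ofPred_eq, hval2, hp0, zero_add] at this
      exact hpu ((mul_pos_iff_of_pos_left hε).1 this)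
    ) (fun e he => ⟨hinc2 e he.1, he.2⟩)
  refine hp'v (key ⟨?_, hp'Y⟩)
  rw [mem_ofPred_eq, hval2]
  have := hge p' hp'Y hp'v
  have := mul_pos hε hp'u
  linarith

theorem quasi_core [FiniteDimensional ℝ W] {d : ℕ} (hW : Module.finrank ℝ W = d)
    (hb : ∀ e, f e b < 0) (h : IsModel ρ fun w => {e | 0 < f e w})
    (x y : D) (z w : Fin (d + 1) → D) (hwy : ∀ k, w k ≤ y) (hwz : ∀ k i, i ≠ k → w k ≤ z i)
    (hz : ∀ u : D, (∀ i, u ≤ z i) → u ≤ x) (hy : ∀ k, y ≤ x ⊔ w k) : y ≤ x := by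
  classical
  by_contra hcon
  let X : Set E := {e | ∃ v, ρ v ≤ x ∧ 0 < f e v}
  let Y : Set E := {e | ∃ v, ρ v ≤ y ∧ 0 < f e v}
  have hXle : ∀ v, x ≤ ρ v ↔ X ⊆ {e | 0 < f e v} := fun v => by
    rw [h.le_rho]
    exact ⟨fun H e ⟨u, hu, he⟩ => H u hu he, fun H u hu e he => H ⟨u, hu, he⟩⟩
  have hYle : ∀ v, y ≤ ρ v ↔ Y ⊆ {e | 0 < f e v} := fun v => by
    rw [h.le_rho]
    exact ⟨fun H e ⟨u, hu, he⟩ => H u hu he, fun H u hu e he => H ⟨u, hu, he⟩⟩
  have h0 : ∃ v, X ⊆ {e | 0 < f e v} ∧ ¬ Y ⊆ {e | 0 < f e v} := by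
    by_contra hno
    push Not at hno
    refine hcon ((h _ _).2 fun v u hv hu => ?_)
    exact h.sub (hv.trans ((hYle u).2 (hno u ((hXle u).1 hu))))
  obtain ⟨v, p, hXv, hpY, hpv, hcrit⟩ := exists_critical hb X Y h0
  have hu : ∀ k, ∃ u, ρ u ≤ w k ∧ 0 < f p u := by
    intro k
    have h1 : ¬ w k ≤ ρ v := fun h1 =>
      hpv ((hYle v).1 ((hy k).trans (sup_le ((hXle v).2 hXv) h1)) hpY)
    rw [h.le_rho] at h1
    push Not at h1
    obtain ⟨u, hu1, hu2⟩ := h1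
    obtain ⟨e, he1, he2⟩ := Set.not_subset.1 hu2
    exact ⟨u, hu1, hcrit u e ⟨u, hu1.trans (hwy k), he1⟩ he2 he1⟩
  choose u hu1 hu2 using hu
  have hdep : ¬ LinearIndependent ℝ u := fun hli => by
    have := hli.fintype_card_le_finrank
    rw [Fintype.card_fin, hW] at this
    omega
  obtain ⟨g, hg, k0, hk0⟩ := Fintype.not_linearIndependent_iff.1 hdep
  let a : Fin (d + 1) → ℝ := fun k => max (g k) 0
  let c : Fin (d + 1) → ℝ := fun k => max (-g k) 0
  have hac : ∀ k, a k - c k = g k := fun k => by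
    simp only [a, c]
    rcases le_total (g k) 0 with h1 | h1
    · rw [max_eq_right h1, max_eq_left (by linarith)]; ring
    · rw [max_eq_left h1, max_eq_right (by linarith)]; ring
  have ha0 : ∀ k, 0 ≤ a k := fun k => le_max_right _ _
  have hc0 : ∀ k, 0 ≤ c k := fun k => le_max_right _ _
  have hsum : ∑ k, a k • u k = ∑ k, c k • u k := by
    rw [← sub_eq_zero, ← Finset.sum_sub_distrib, ← hg]
    exact Finset.sum_congr rfl fun k _ => by rw [← sub_smul, hac]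
  have hev : ∀ (a : Fin (d + 1) → ℝ) e, f e (∑ k, a k • u k) = ∑ k, a k * f e (u k) := by
    intro a e
    rw [map_sum]
    exact Finset.sum_congr rfl fun k _ => by rw [map_smul, smul_eq_mul]
  have hpos : ∀ (a : Fin (d + 1) → ℝ), (∀ k, 0 ≤ a k) → 0 < a k0 →
      0 < f p (∑ k, a k • u k) := by
    intro a ha hk
    rw [hev]
    exact Finset.sum_pos' (fun k _ => mul_nonneg (ha k) (hu2 k).le)
      ⟨k0, Finset.mem_univ _, mul_pos hk (hu2 k0)⟩
  have hle : ∀ (a : Fin (d + 1) → ℝ), (∀ k, 0 ≤ a k) → ∀ i, a i = 0 →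
      ρ (∑ k, a k • u k) ≤ z i := by
    intro a ha i hi
    refine h.rho_le.2 fun t ht e he => ?_
    rw [mem_ofPred_eq, hev] at he
    by_contra hne
    refine absurd he (not_lt.2 (Finset.sum_nonpos fun k _ => ?_))
    by_cases hk : i = k
    · rw [← hk, hi, zero_mul]
    · refine mul_nonpos_of_nonneg_of_nonpos (ha k) (not_lt.1 fun h1 => hne ?_)
      exact h.sub (((hu1 k).trans (hwz k i hk)).trans ht) h1
  have hp : 0 < f p (∑ k, a k • u k) := by
    rcases lt_or_gt_of_ne hk0 with h1 | h1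
    · rw [hsum]; exact hpos c hc0 (lt_max_of_lt_left (by linarith))
    · exact hpos a ha0 (lt_max_of_lt_left h1)
  have hx : ρ (∑ k, a k • u k) ≤ x := by
    refine hz _ fun i => ?_
    rcases le_total (g i) 0 with h1 | h1
    · exact hle a ha0 i (max_eq_right h1)
    · rw [hsum]; exact hle c hc0 i (max_eq_right (by linarith))
  exact hpv (hXv ⟨_, hx, hp⟩)

end linear

end Pool.Agent.MP_88c4e5_co.H68
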