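import Pool.Agent.MP_88c4e5_co.H68.Defs

namespace Pool.Agent.MP_88c4e5_co.H68

open Set

variable {d : ℕ} {A : Arrangement d}

theorem region_subset (R : A.Region) : R.1 ⊆ A.compl := by
  obtain ⟨x, -, hx⟩ := R.2
  rw [hx]
  exact connectedComponentIn_subset _ _

theorem region_preconnected (R : A.Region) : IsPreconnected R.1 := by
  obtain ⟨x, -, hx⟩ := R.2
  rw [hx]
  exact isPreconnected_connectedComponentIn

theorem region_nonempty (R : A.Region) : R.1.Nonempty := by
  obtain ⟨x, h, hx⟩ := R.2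
  rw [hx]
  exact ⟨x, mem_connectedComponentIn h⟩

theorem region_eq (R : A.Region) {x} (hx : x ∈ R.1) : R.1 = connectedComponentIn A.compl x := by
  obtain ⟨y, -, hy⟩ := R.2
  rw [hy] at hx ⊢
  exact connectedComponentIn_eq hx

theorem ne_zero_of_mem {f : EuclideanSpace ℝ (Fin d) →ₗ[ℝ] ℝ} (hf : LinearMap.ker f ∈ A.hyps)
    {x} (hx : x ∈ A.compl) : f x ≠ 0 := fun h => hx _ hf (LinearMap.mem_ker.2 h)

theorem sign_const (R : A.Region) {f : EuclideanSpace ℝ (Fin d) →ₗ[ℝ] ℝ}
    (hf : LinearMap.ker f ∈ A.hyps) {x y} (hx : x ∈ R.1) (hy : y ∈ R.1) (h : 0 < f x) :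
    0 < f y := by
  by_contra hcon
  have hc : Continuous f := f.continuous_of_finiteDimensional
  have := (region_preconnected R).intermediate_value hy hx hc.continuousOn
  obtain ⟨z, hz, hz0⟩ := this (⟨not_lt.1 hcon, h.le⟩ : (0 : ℝ) ∈ Icc (f y) (f x))
  exact ne_zero_of_mem hf (region_subset R hz) hz0

theorem sign_const_neg (R : A.Region) {f : EuclideanSpace ℝ (Fin d) →ₗ[ℝ] ℝ}
    (hf : LinearMap.ker f ∈ A.hyps) {x y} (hx : x ∈ R.1) (hy : y ∈ R.1) (h : f x < 0) :
    f y < 0 := by
  rcases lt_trichotomy (f y) 0 with h1 | h1 | h1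
  · exact h1
  · exact absurd h1 (ne_zero_of_mem hf (region_subset R hy))
  · exact absurd (sign_const R hf hy hx h1) (not_lt.2 h.le)

theorem mem_sepSet_iff (B R : A.Region) {f : EuclideanSpace ℝ (Fin d) →ₗ[ℝ] ℝ}
    (hf : LinearMap.ker f ∈ A.hyps) {b x} (hb : b ∈ B.1) (hfb : f b < 0) (hx : x ∈ R.1) :
    LinearMap.ker f ∈ A.sepSet B R ↔ 0 < f x := by
  constructor
  · rintro ⟨-, g, hg, hgR, hgB⟩
    have h1 : f x • b - f b • x ∈ LinearMap.ker f := by
      rw [LinearMap.mem_ker, map_sub, map_smul, map_smul, smul_eq_mul, smul_eq_mul]; ring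
    rw [← hg, LinearMap.mem_ker, map_sub, map_smul, map_smul, smul_eq_mul, smul_eq_mul] at h1
    have h2 := hgR x hx
    have h3 := hgB b hb
    by_contra hcon
    have h4 : 0 ≤ f x * g b := mul_nonneg_of_nonpos_of_nonpos (not_lt.1 hcon) h3.le
    have h5 : f b * g x < 0 := mul_neg_of_neg_of_pos hfb h2
    linarith
  · intro h
    exact ⟨hf, f, rfl, fun y hy => sign_const R hf hx hy h,
      fun y hy => sign_const_neg B hf hb hy hfb⟩

theorem exists_functional {H : Submodule ℝ (EuclideanSpace ℝ (Fin d))} (hH : H ∈ A.hyps)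
    {b} (hb : b ∉ H) :
    ∃ f : EuclideanSpace ℝ (Fin d) →ₗ[ℝ] ℝ, LinearMap.ker f = H ∧ f b < 0 := by
  obtain ⟨g, hg1, hg2⟩ := H.exists_dual_map_eq_bot_of_notMem hb inferInstance
  have hle : H ≤ LinearMap.ker g := by
    intro z hz
    have : g z ∈ Submodule.map g H := Submodule.mem_map_of_mem hz
    rw [hg2] at this
    exact LinearMap.mem_ker.2 ((Submodule.mem_bot ℝ).1 this)
  have hne : LinearMap.ker g ≠ ⊤ := by
    intro h
    have : b ∈ LinearMap.ker g := by rw [h]; trivial
    exact hg1 this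
  have hlt := Submodule.finrank_lt hne
  have hcod := A.codim_one H hH
  rw [finrank_euclideanSpace_fin] at hlt
  have heq : H = LinearMap.ker g := Submodule.eq_of_le_of_finrank_le hle (by omega)
  rcases lt_or_gt_of_ne hg1 with h | h
  · exact ⟨g, heq.symm, h⟩
  · refine ⟨-g, by rw [LinearMap.ker_neg, heq], by simpa using h⟩

theorem sepSet_injective (A : Arrangement d) (B : A.Region) :
    Function.Injective (A.sepSet B) := by
  intro R R' h
  obtain ⟨b, hb⟩ := region_nonempty B
  obtain ⟨x, hx⟩ := region_nonempty R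
  obtain ⟨y, hy⟩ := region_nonempty R'
  have hseg : segment ℝ x y ⊆ A.compl := by
    rintro z ⟨s, t, hs, ht, hst, rfl⟩ H hH hz
    obtain ⟨f, rfl, hfb⟩ := exists_functional hH (region_subset B hb H hH)
    have h1 := mem_sepSet_iff B R hH hb hfb hx
    have h2 := mem_sepSet_iff B R' hH hb hfb hy
    rw [h] at h1
    have h3 : 0 < f x ↔ 0 < f y := h1.symm.trans h2
    have hx0 := ne_zero_of_mem hH (region_subset R hx)
    have hy0 := ne_zero_of_mem hH (region_subset R' hy)
    rw [LinearMap.mem_ker, map_add, map_smul, map_smul, smul_eq_mul, smul_eq_mul] at hz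
    have ht' : t = 1 - s := by linarith
    subst ht'
    by_cases hp : 0 < f x
    · have hq := h3.1 hp
      rcases hs.eq_or_lt with h0 | h0
      · rw [← h0] at hz; simp at hz; exact hy0 hz
      · nlinarith [mul_pos h0 hp, mul_nonneg ht hq.le]
    · have hq : ¬ 0 < f y := fun hq => hp (h3.2 hq)
      have hp' : f x < 0 := lt_of_le_of_ne (not_lt.1 hp) hx0
      have hq' : f y < 0 := lt_of_le_of_ne (not_lt.1 hq) hy0
      rcases hs.eq_or_lt with h0 | h0
      · rw [← h0] at hz; simp at hz; exact hy0 hz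
      · nlinarith [mul_neg_of_pos_of_neg h0 hp', mul_nonpos_of_nonneg_of_nonpos ht hq'.le]
  have hmem : y ∈ connectedComponentIn A.compl x :=
    ((convex_segment x y).isPreconnected.subset_connectedComponentIn (left_mem_segment ℝ x y) hseg)
      (right_mem_segment ℝ x y)
  refine Subtype.ext ?_
  rw [region_eq R hx, region_eq R' hy]
  exact connectedComponentIn_eq hmem

end Pool.Agent.MP_88c4e5_co.H68
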