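import Pool.Agent.MP_88c4e5_co.H68.Radon

namespace Pool.Agent.MP_88c4e5_co.H68

open Set

/-- What the two-projection construction provides inside a lattice `D`. -/
structure Frame (D : Type) [Lattice D] (P I J K₁ K₂ : Type) [Fintype I] [Fintype J]
    (x : P → I → ℝ) (y : P → J → ℝ) (h : P → ℝ)
    (p₁ : K₁ → P) (s₁ : K₁ → Finset P) (p₂ : K₂ → P) (s₂ : K₂ → Finset P) where
  lo : (I → ℝ) → D
  up : (J → ℝ) → D
  X0 : D
  X1 : D
  Int : D → Set P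
  Cl : D → Set P
  x0_le_x1 : X0 ≤ X1
  lo_le_x1 : ∀ α, lo α ≤ X1
  x0_le_up : ∀ β, X0 ≤ up β
  le_iff : ∀ X Y, X ≤ X1 → X0 ≤ Y → Int X ⊆ Cl Y → X ≤ Y
  lo_le : ∀ α Y, X0 ≤ Y → {p | h p < α ⬝ᵥ x p} ⊆ Cl Y → lo α ≤ Y
  le_up : ∀ β X, X ≤ X1 → Int X ⊆ {p | β ⬝ᵥ y p < h p} → X ≤ up β
  lo_le_up : ∀ α β, lo α ≤ up β ↔ {p | h p < α ⬝ᵥ x p} ⊆ {p | β ⬝ᵥ y p < h p}
  sub_cl : ∀ α Y, lo α ≤ Y → {p | h p < α ⬝ᵥ x p} ⊆ Cl Y
  int_sub : ∀ β X, X ≤ up β → Int X ⊆ {p | β ⬝ᵥ y p < h p}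
  cl_mono : ∀ X Y, X ≤ Y → Cl X ⊆ Cl Y
  int_mono : ∀ X Y, X ≤ Y → Int X ⊆ Int Y
  ruleJ : ∀ k Y, X0 ≤ Y → (∀ r ∈ s₁ k, r ∈ Cl Y) → p₁ k ∈ Cl Y
  ruleM : ∀ k X, X ≤ X1 → p₂ k ∈ Int X → ∃ r ∈ s₂ k, r ∈ Int X

theorem exists_big {K : Type} [Finite K] (n c : K → ℝ) (hc : ∀ k, 0 < c k) :
    ∀ᶠ M in (Filter.atTop : Filter ℝ), ∀ k, n k < M * c k := by
  refine Filter.eventually_all.2 fun k => ?_
  filter_upwards [Filter.eventually_gt_atTop (n k / c k)] with M hM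
  rwa [div_lt_iff₀ (hc k)] at hM

theorem dot_bound {I : Type} [Fintype I] (α ξ : I → ℝ) {M γ : ℝ} (hM : 0 < M)
    (h : ∀ i, M * |α i| ≤ γ) : M * |α ⬝ᵥ ξ| ≤ γ * ∑ i, |ξ i| := by
  calc M * |α ⬝ᵥ ξ| ≤ M * ∑ i, |α i * ξ i| :=
        mul_le_mul_of_nonneg_left (Finset.abs_sum_le_sum_abs _ _) hM.le
    _ = ∑ i, M * |α i| * |ξ i| := by
        rw [Finset.mul_sum]
        exact Finset.sum_congr rfl fun i _ => by rw [abs_mul, mul_assoc]
    _ ≤ ∑ i, γ * |ξ i| :=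
        Finset.sum_le_sum fun i _ => mul_le_mul_of_nonneg_right (h i) (abs_nonneg _)
    _ = γ * ∑ i, |ξ i| := by rw [Finset.mul_sum]

/-- sign of a Boolean -/
def sg (s : Bool) : ℝ := if s then 1 else -1

theorem sg_mul_self (s : Bool) : sg s * sg s = 1 := by cases s <;> simp [sg]

theorem abs_sg (s : Bool) : |sg s| = 1 := by cases s <;> simp [sg]

theorem abs_le_of_sg {M a γ : ℝ} (hM : 0 < M) (h : ∀ s, sg s * M * a ≤ γ) : M * |a| ≤ γ := by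
  have h1 := h true
  have h2 := h false
  simp only [sg, if_true, Bool.false_eq_true, if_false] at h1 h2
  rcases abs_cases a with ⟨h3, -⟩ | ⟨h3, -⟩ <;> rw [h3] <;> linarith

/-- The functionals of the two-projection arrangement. -/
noncomputable def tpF {P I J : Type} [Fintype I] [Fintype J]
    (x : P → I → ℝ) (y : P → J → ℝ) (h : P → ℝ) (M : ℝ) :
    P ⊕ (I × Bool) ⊕ (J × Bool) → ((I → ℝ) × (J → ℝ) × ℝ) →ₗ[ℝ] ℝ
  | .inl p =>
    { toFun := fun w => w.1 ⬝ᵥ x p + w.2.1 ⬝ᵥ y p + w.2.2 * h p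
      map_add' := fun u v => by simp [add_dotProduct]; ring
      map_smul' := fun c v => by simp [smul_dotProduct]; ring }
  | .inr (.inl q) =>
    { toFun := fun w => sg q.2 * M * w.1 q.1 + w.2.2
      map_add' := fun u v => by simp; ring
      map_smul' := fun c v => by simp; ring }
  | .inr (.inr n) =>
    { toFun := fun w => sg n.2 * M * w.2.1 n.1 + w.2.2
      map_add' := fun u v => by simp; ring
      map_smul' := fun c v => by simp; ring }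

theorem exists_frame (d : ℕ) {P I J K₁ K₂ : Type} [Finite P] [Fintype I] [Fintype J]
    [Nonempty I] [Nonempty J] [Finite K₁] [Finite K₂]
    (hd : Fintype.card I + Fintype.card J + 1 ≤ d)
    (x : P → I → ℝ) (y : P → J → ℝ) (h : P → ℝ) (hh : ∀ p, 0 < h p)
    (p₁ : K₁ → P) (s₁ : K₁ → Finset P) (c₁ : ℝ) (hc₁ : 0 ≤ c₁)
    (hy₁ : ∀ k, y (p₁ k) = c₁ • ∑ r ∈ s₁ k, y r) (hh₁ : ∀ k, c₁ * ∑ r ∈ s₁ k, h r < h (p₁ k))
    (p₂ : K₂ → P) (s₂ : K₂ → Finset P) (c₂ : ℝ) (hc₂ : 0 ≤ c₂)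
    (hx₂ : ∀ k, x (p₂ k) = c₂ • ∑ r ∈ s₂ k, x r) (hh₂ : ∀ k, c₂ * ∑ r ∈ s₂ k, h r < h (p₂ k)) :
    ∃ (A : Arrangement d) (B : A.Region),
      Nonempty (Frame (DM A B) P I J K₁ K₂ x y h p₁ s₁ p₂ s₂) := by
  classical
  obtain ⟨M, ⟨⟨⟨hM, hMx⟩, hMy⟩, hM1⟩, hM2⟩ := (((((Filter.eventually_gt_atTop (0 : ℝ)).and
    (exists_big (fun k : P × I => 2 * |x k.1 k.2|) (fun k => h k.1) fun k => hh k.1)).and
    (exists_big (fun k : P × J => 2 * |y k.1 k.2|) (fun k => h k.1) fun k => hh k.1)).and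
    (exists_big (fun k : K₁ => ∑ i, |(x (p₁ k) - c₁ • ∑ r ∈ s₁ k, x r) i|)
      (fun k => h (p₁ k) - c₁ * ∑ r ∈ s₁ k, h r) fun k => sub_pos.2 (hh₁ k))).and
    (exists_big (fun k : K₂ => ∑ i, |(y (p₂ k) - c₂ • ∑ r ∈ s₂ k, y r) i|)
      (fun k => h (p₂ k) - c₂ * ∑ r ∈ s₂ k, h r) fun k => sub_pos.2 (hh₂ k))).exists
  let f := tpF x y h M
  have fP : ∀ p w, f (.inl p) w = w.1 ⬝ᵥ x p + w.2.1 ⬝ᵥ y p + w.2.2 * h p := fun _ _ => rfl
  have fQ : ∀ q w, f (.inr (.inl q)) w = sg q.2 * M * w.1 q.1 + w.2.2 := fun _ _ => rfl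
  have fN : ∀ n w, f (.inr (.inr n)) w = sg n.2 * M * w.2.1 n.1 + w.2.2 := fun _ _ => rfl
  obtain ⟨A, B, ρ, hρ⟩ := exists_model d (W := (I → ℝ) × (J → ℝ) × ℝ)
    (by simpa [Module.finrank_prod, add_assoc] using hd) f (0, 0, -1) (by
      rintro (p | q | n)
      · rw [fP]; simpa using hh p
      · rw [fQ]; simp
      · rw [fN]; simp)
  let vQ : I × Bool → (I → ℝ) × (J → ℝ) × ℝ :=
    fun q => (Pi.single q.1 (sg q.2 * (2 / M)), 0, -1)
  let wN : J × Bool → (I → ℝ) × (J → ℝ) × ℝ :=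
    fun n => (0, Pi.single n.1 (-(sg n.2 * (2 / M))), 1)
  have hvQ1 : ∀ q, 0 < f (.inr (.inl q)) (vQ q) := fun q => by
    rw [fQ]
    simp only [vQ, Pi.single_eq_same]
    have : sg q.2 * M * (sg q.2 * (2 / M)) = 2 := by
      have := sg_mul_self q.2
      field_simp
      linear_combination this
    linarith
  have hvQ2 : ∀ q p, ¬ 0 < f (.inl p) (vQ q) := fun q p => by
    rw [fP]
    simp only [vQ, single_dotProduct, zero_dotProduct, not_lt]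
    have h1 := hMx (p, q.1)
    have h2 : sg q.2 * (2 / M) * x p q.1 ≤ 2 / M * |x p q.1| := by
      refine (le_abs_self _).trans ?_
      rw [abs_mul, abs_mul, abs_sg, one_mul, abs_of_pos (by positivity : 0 < 2 / M)]
    have h3 : 2 / M * |x p q.1| ≤ h p := by
      rw [div_mul_eq_mul_div, div_le_iff₀ hM]
      simp only at h1
      linarith
    linarith
  have hwN1 : ∀ n, ¬ 0 < f (.inr (.inr n)) (wN n) := fun n => by
    rw [fN]
    simp only [wN, Pi.single_eq_same]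
    have : sg n.2 * M * (-(sg n.2 * (2 / M))) = -2 := by
      have := sg_mul_self n.2
      field_simp
      linear_combination -this
    linarith
  have hwN2 : ∀ n p, 0 < f (.inl p) (wN n) := fun n p => by
    rw [fP]
    simp only [wN, single_dotProduct, zero_dotProduct]
    have h1 := hMy (p, n.1)
    have h2 : sg n.2 * (2 / M) * y p n.1 ≤ 2 / M * |y p n.1| := by
      refine (le_abs_self _).trans ?_
      rw [abs_mul, abs_mul, abs_sg, one_mul, abs_of_pos (by positivity : 0 < 2 / M)]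
    have h3 : 2 / M * |y p n.1| < h p := by
      rw [div_mul_eq_mul_div, div_lt_iff₀ hM]
      simp only at h1
      linarith
    linarith
  let X0 : DM A B := ⨆ q, ρ (vQ q)
  let X1 : DM A B := ⨅ n, ρ (wN n)
  have hQ : ∀ w, X0 ≤ ρ w → ∀ q, 0 < f (.inr (.inl q)) w :=
    fun w hw q => hρ.sub ((le_iSup (fun q => ρ (vQ q)) q).trans hw) (hvQ1 q)
  have hN : ∀ v, ρ v ≤ X1 → ∀ n, ¬ 0 < f (.inr (.inr n)) v :=
    fun v hv n h1 => hwN1 n (hρ.sub (hv.trans (iInf_le (fun n => ρ (wN n)) n)) h1)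
  -- a region without `N`-points is below `X1`; a region with all `Q`-points is above `X0`
  have hle1 : ∀ v : (I → ℝ) × (J → ℝ) × ℝ, v.2.1 = 0 → v.2.2 = -1 → ρ v ≤ X1 := by
    intro v h1 h2
    refine le_iInf fun n => hρ.rho_le_rho.2 ?_
    rintro (p | q | n') he
    · exact hwN2 n p
    · change 0 < f _ _
      rw [fQ]; simp [wN]
    · exfalso
      change 0 < f _ _ at he
      rw [fN, h1, h2] at he
      norm_num at he
  have hle0 : ∀ w : (I → ℝ) × (J → ℝ) × ℝ, w.1 = 0 → w.2.2 = 1 → X0 ≤ ρ w := by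
    intro w h1 h2
    refine iSup_le fun q => hρ.rho_le_rho.2 ?_
    rintro (p | q' | n) he
    · exact absurd he (hvQ2 q p)
    · change 0 < f _ _
      rw [fQ, h1, h2]; simp
    · exfalso
      change 0 < f _ _ at he
      rw [fN] at he
      norm_num [vQ] at he
  have hlo : ∀ α p, 0 < f (.inl p) (α, 0, -1) ↔ h p < α ⬝ᵥ x p := fun α p => by
    rw [fP]; simp
  have hup : ∀ β p, 0 < f (.inl p) (0, -β, 1) ↔ β ⬝ᵥ y p < h p := fun β p => by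
    rw [fP]; simp
  have hmain : ∀ X Y, X ≤ X1 → X0 ≤ Y →
      {p | ∃ v, ρ v ≤ X ∧ 0 < f (.inl p) v} ⊆ {p | ∀ w, Y ≤ ρ w → 0 < f (.inl p) w} → X ≤ Y := by
    intro X Y hX hY H
    refine (hρ X Y).2 fun v w hv hw => ?_
    rintro (p | q | n) he
    · exact H ⟨v, hv, he⟩ w hw
    · exact hQ w (hY.trans hw) q
    · exact absurd he (hN v (hv.trans hX) n)
  refine ⟨A, B, ⟨{
    lo := fun α => ρ (α, 0, -1)
    up := fun β => ρ (0, -β, 1)
    X0 := X0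
    X1 := X1
    Int := fun X => {p | ∃ v, ρ v ≤ X ∧ 0 < f (.inl p) v}
    Cl := fun Y => {p | ∀ w, Y ≤ ρ w → 0 < f (.inl p) w}
    x0_le_x1 := iSup_le fun q => hle1 _ rfl rfl
    lo_le_x1 := fun α => hle1 _ rfl rfl
    x0_le_up := fun β => hle0 _ rfl rfl
    le_iff := hmain
    lo_le := fun α Y hY H => hmain _ _ (hle1 _ rfl rfl) hY fun p ⟨v, hv, hp⟩ =>
      H ((hlo α p).1 (hρ.sub hv hp))
    le_up := fun β X hX H => hmain _ _ hX (hle0 _ rfl rfl) fun p hp w hw =>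
      hρ.sub hw ((hup β p).2 (H hp))
    lo_le_up := fun α β => ⟨fun H p hp => (hup β p).1 (hρ.sub H ((hlo α p).2 hp)), fun H =>
      hmain _ _ (hle1 _ rfl rfl) (hle0 _ rfl rfl) fun p ⟨v, hv, hp⟩ w hw =>
        hρ.sub hw ((hup β p).2 (H ((hlo α p).1 (hρ.sub hv hp))))⟩
    sub_cl := fun α Y H p hp w hw => hρ.sub (H.trans hw) ((hlo α p).2 hp)
    int_sub := fun β X H p ⟨v, hv, hp⟩ => (hup β p).1 (hρ.sub (hv.trans H) hp)
    cl_mono := fun X Y H p hp w hw => hp w (H.trans hw)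
    int_mono := fun X Y H p ⟨v, hv, hp⟩ => ⟨v, hv.trans H, hp⟩
    ruleJ := ?_
    ruleM := ?_ }⟩⟩
  · intro k Y hY H w hw
    have hq := hQ w (hY.trans hw)
    have hγ : ∀ i, M * |w.1 i| ≤ w.2.2 := fun i => abs_le_of_sg hM fun s => by
      have := hq (i, !s)
      rw [fQ] at this
      cases s <;> simp [sg] at this ⊢ <;> linarith
    have hγ0 : 0 < w.2.2 := by
      obtain ⟨i⟩ := ‹Nonempty I›
      have h1 := hq (i, true)
      have h2 := hq (i, false)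
      rw [fQ] at h1 h2
      simp [sg] at h1 h2
      linarith
    have hb := dot_bound w.1 (x (p₁ k) - c₁ • ∑ r ∈ s₁ k, x r) hM hγ
    have hsum : 0 ≤ ∑ r ∈ s₁ k, f (.inl r) w := Finset.sum_nonneg fun r hr => (H r hr w hw).le
    have hid : f (.inl (p₁ k)) w = c₁ * ∑ r ∈ s₁ k, f (.inl r) w +
        (w.1 ⬝ᵥ (x (p₁ k) - c₁ • ∑ r ∈ s₁ k, x r) + w.2.2 * (h (p₁ k) - c₁ * ∑ r ∈ s₁ k, h r)) := by
      simp only [fP, hy₁ k, Finset.sum_add_distrib, dotProduct_sub, dotProduct_smul,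
        dotProduct_sum, smul_eq_mul, ← Finset.mul_sum]
      ring
    rw [hid]
    have h1 := mul_lt_mul_of_pos_left (hM1 k) hγ0
    have h2 := neg_abs_le (w.1 ⬝ᵥ (x (p₁ k) - c₁ • ∑ r ∈ s₁ k, x r))
    have h3 : 0 < M * (w.1 ⬝ᵥ (x (p₁ k) - c₁ • ∑ r ∈ s₁ k, x r) +
        w.2.2 * (h (p₁ k) - c₁ * ∑ r ∈ s₁ k, h r)) := by
      have := mul_le_mul_of_nonneg_left h2 hM.le
      nlinarith
    have h4 := (mul_pos_iff_of_pos_left hM).1 h3
    have h5 := mul_nonneg hc₁ hsum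
    linarith
  · rintro k X hX ⟨v, hv, hp⟩
    have hn := hN v (hv.trans hX)
    have hγ : ∀ i, M * |v.2.1 i| ≤ -v.2.2 := fun i => abs_le_of_sg hM fun s => by
      have := hn (i, s)
      rw [fN] at this
      linarith [not_lt.1 this]
    have hγ0 : 0 ≤ -v.2.2 := by
      obtain ⟨i⟩ := ‹Nonempty J›
      exact (mul_nonneg hM.le (abs_nonneg _)).trans (hγ i)
    have hb := dot_bound v.2.1 (y (p₂ k) - c₂ • ∑ r ∈ s₂ k, y r) hM hγ
    have hid : f (.inl (p₂ k)) v = c₂ * ∑ r ∈ s₂ k, f (.inl r) v +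
        (v.2.1 ⬝ᵥ (y (p₂ k) - c₂ • ∑ r ∈ s₂ k, y r) +
          v.2.2 * (h (p₂ k) - c₂ * ∑ r ∈ s₂ k, h r)) := by
      simp only [fP, hx₂ k, Finset.sum_add_distrib, dotProduct_sub, dotProduct_smul,
        dotProduct_sum, smul_eq_mul, ← Finset.mul_sum]
      ring
    by_contra hno
    push Not at hno
    have hsum : ∑ r ∈ s₂ k, f (.inl r) v ≤ 0 :=
      Finset.sum_nonpos fun r hr => not_lt.1 fun h1 => hno r hr ⟨v, hv, h1⟩
    have h1 := mul_le_mul_of_nonneg_left (hM2 k).le hγ0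
    have h2 := le_abs_self (v.2.1 ⬝ᵥ (y (p₂ k) - c₂ • ∑ r ∈ s₂ k, y r))
    have h3 : M * (v.2.1 ⬝ᵥ (y (p₂ k) - c₂ • ∑ r ∈ s₂ k, y r) +
        v.2.2 * (h (p₂ k) - c₂ * ∑ r ∈ s₂ k, h r)) ≤ 0 := by
      have := mul_le_mul_of_nonneg_left h2 hM.le
      nlinarith
    have h4 : v.2.1 ⬝ᵥ (y (p₂ k) - c₂ • ∑ r ∈ s₂ k, y r) +
        v.2.2 * (h (p₂ k) - c₂ * ∑ r ∈ s₂ k, h r) ≤ 0 := by
      by_contra h4
      exact absurd (mul_pos hM (not_le.1 h4)) (not_lt.2 h3)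
    have h5 := mul_nonpos_of_nonneg_of_nonpos hc₂ hsum
    rw [hid] at hp
    linarith

end Pool.Agent.MP_88c4e5_co.H68
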